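import Mathlib

set_option autoImplicit false

namespace Pool.Agent.H376b

/-- modulus and multiplier attached to a decreasing chain of `j` quotients in `[2, d]` -/
def Ch : ℕ → ℕ → ℕ → ℤ → Prop
  | 0, _, D, P => D = 1 ∧ P = 0
  | j + 1, d, D, P => ∃ e D' P', 2 ≤ e ∧ e ≤ d ∧ Ch j (e - 1) D' P' ∧ D = e * D' ∧ P = 1 - e * P'

lemma Ch_mono {j d d' D : ℕ} {P : ℤ} (h : Ch j d D P) (hd : d ≤ d') : Ch j d' D P := by
  cases j with
  | zero => exact h
  | succ j =>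
    obtain ⟨e, D', P', h1, h2, h3⟩ := h
    exact ⟨e, D', P', h1, h2.trans hd, h3⟩

lemma Ch_dvd : ∀ {j d D : ℕ} {P : ℤ}, Ch j d D P → D ∣ d.factorial
  | 0, _, _, _, h => by rw [h.1]; exact one_dvd _
  | j + 1, d, D, P, ⟨e, D', P', h1, h2, h3, h4, _⟩ => by
    rw [h4]
    refine Dvd.dvd.trans ?_ (Nat.factorial_dvd_factorial h2)
    obtain ⟨i, rfl⟩ : ∃ i, e = i + 1 := ⟨e - 1, by omega⟩
    rw [Nat.factorial_succ]
    exact Nat.mul_dvd_mul_left _ (Ch_dvd h3)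

lemma Ch_len : ∀ {j d D : ℕ} {P : ℤ}, Ch (j + 1) d D P → j + 2 ≤ d
  | 0, _, _, _, ⟨_, _, _, h1, h2, _⟩ => by omega
  | j + 1, _, _, _, ⟨_, _, _, h1, h2, h3, _⟩ => by have := Ch_len h3; omega

lemma Ch_full : ∀ {j D : ℕ} {P : ℤ}, Ch j (j + 1) D P → D = (j + 1).factorial
  | 0, _, _, h => by rw [h.1]; rfl
  | j + 1, D, P, h => by
    obtain ⟨e, D', P', h1, h2, h3, h4, _⟩ := h
    have he : e = j + 2 := by
      cases j with
      | zero => omega
      | succ j => have := Ch_len h3; omega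
    subst he
    rw [h4, Ch_full h3, Nat.factorial_succ (j + 1)]

lemma Ch_omit : ∀ {j D : ℕ} {P : ℤ}, Ch j (j + 2) D P →
    ∃ o, 1 ≤ o ∧ o ≤ j + 2 ∧ D * o = (j + 2).factorial
  | 0, _, _, h => ⟨2, by omega, by omega, by rw [h.1]; rfl⟩
  | j + 1, D, P, h => by
    obtain ⟨e, D', P', h1, h2, h3, h4, h5⟩ := h
    rcases Nat.lt_or_ge e (j + 3) with he | he
    · have : Ch (j + 1) (j + 1 + 1) D P := ⟨e, D', P', h1, by omega, h3, h4, h5⟩
      refine ⟨j + 3, by omega, by omega, ?_⟩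
      rw [Ch_full this, Nat.factorial_succ (j + 2)]; ring
    · have he' : e = j + 3 := by omega
      subst he'
      obtain ⟨o, ho1, ho2, ho3⟩ := Ch_omit h3
      refine ⟨o, ho1, by omega, ?_⟩
      rw [h4, mul_assoc, ho3, Nat.factorial_succ (j + 2)]

lemma full_exists : ∀ j : ℕ, ∃ P, Ch j (j + 1) (j + 1).factorial P
  | 0 => ⟨0, rfl, rfl⟩
  | j + 1 => by
    obtain ⟨P, h⟩ := full_exists j
    exact ⟨_, j + 2, _, P, by omega, le_rfl, h, Nat.factorial_succ (j + 1), rfl⟩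

lemma cons_iff (e D : ℕ) (P n r : ℤ) (he : 0 < e) :
    ((e * D : ℕ) : ℤ) ∣ r - n * (1 - e * P) ↔ ∃ k : ℤ, n - r = e * k ∧ (D : ℤ) ∣ k - n * P := by
  constructor
  · rintro ⟨c, hc⟩
    push_cast at hc
    exact ⟨n * P - D * c, by linear_combination -hc, ⟨-c, by ring⟩⟩
  · rintro ⟨k, hk, c, hc⟩
    exact ⟨-c, by push_cast; linear_combination -hk - e * hc⟩

/-- two chains whose classes are disjoint for odd `n`, one of them of least `2`-adic weight -/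
lemma pair_exists (j : ℕ) (hj : 2 ≤ j) : ∃ (a DA DB : ℕ) (PA PB : ℤ), Ch j (j + 2) DA PA ∧
    Ch j (j + 2) DB PB ∧ DB * 2 ^ a = (j + 2).factorial ∧ j + 2 < 2 ^ (a + 1) ∧
    ∀ n r : ℤ, Odd n → (DA : ℤ) ∣ r - n * PA → (DB : ℤ) ∣ r - n * PB → False := by
  have base : ∀ i a : ℕ, i + 4 = 2 ^ a → ∃ (DA DB : ℕ) (PA PB : ℤ), Ch (i + 2) (i + 4) DA PA ∧
      Ch (i + 2) (i + 4) DB PB ∧ DB * 2 ^ a = (i + 4).factorial ∧
      ∀ n r : ℤ, Odd n → (DA : ℤ) ∣ r - n * PA → (DB : ℤ) ∣ r - n * PB → False := by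
    intro i a hi
    obtain ⟨P, h⟩ := full_exists i
    have h1 : Ch (i + 1) (i + 2) ((i + 2) * (i + 1).factorial) (1 - (i + 2 : ℕ) * P) :=
      ⟨i + 2, _, P, by omega, le_rfl, h, rfl, rfl⟩
    have hev : 2 ∣ i := by
      cases a with
      | zero => omega
      | succ a => rw [pow_succ] at hi; omega
    obtain ⟨u, rfl⟩ := hev
    refine ⟨_, _, _, _, ⟨2 * u + 4, _, _, by omega, le_rfl, Ch_mono h1 (by omega), rfl, rfl⟩,
      ⟨2 * u + 3, _, _, by omega, by omega, h1, rfl, rfl⟩, ?_, ?_⟩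
    · rw [← hi, Nat.factorial_succ (2 * u + 3), Nat.factorial_succ (2 * u + 2),
        Nat.factorial_succ (2 * u + 1)]
      ring
    · rintro n r ⟨m, rfl⟩ ⟨c, hc⟩ ⟨c', hc'⟩
      push_cast at hc hc'
      have : 2 * ((2 * m + 1) * ((u + 1) * P)
          + (u + 2) * ((2 * u + 2) * ((2 * u + 1).factorial : ℤ)) * c
          - (2 * u + 3) * (u + 1) * ((2 * u + 1).factorial : ℤ) * c' - m) = 1 := by
        linear_combination hc' - hc
      omega
  induction j, hj using Nat.le_induction with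
  | base =>
    obtain ⟨DA, DB, PA, PB, h1, h2, h3, h4⟩ := base 0 2 rfl
    exact ⟨2, DA, DB, PA, PB, h1, h2, h3, by norm_num, h4⟩
  | succ j hj ih =>
    obtain ⟨a, DA, DB, PA, PB, h1, h2, h3, h4, h5⟩ := ih
    rcases Nat.lt_or_ge (j + 3) (2 ^ (a + 1)) with h | h
    · refine ⟨a, _, _, _, _, ⟨j + 3, DA, PA, by omega, le_rfl, h1, rfl, rfl⟩,
        ⟨j + 3, DB, PB, by omega, le_rfl, h2, rfl, rfl⟩, ?_, h, ?_⟩
      · rw [mul_assoc, h3, Nat.factorial_succ (j + 2)]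
      · intro n r hn hA hB
        obtain ⟨k, hk, hk'⟩ := (cons_iff _ _ _ _ _ (by omega)).mp hA
        obtain ⟨k', hk2, hk2'⟩ := (cons_iff _ _ _ _ _ (by omega)).mp hB
        have : k = k' := by
          have h0 : ((j + 3 : ℕ) : ℤ) ≠ 0 := by positivity
          exact mul_left_cancel₀ h0 (hk.symm.trans hk2)
        subst this
        exact h5 n k hn hk' hk2'
    · obtain ⟨i, rfl⟩ : ∃ i, j = i + 1 := ⟨j - 1, by omega⟩
      obtain ⟨DA, DB, PA, PB, g1, g2, g3, g4⟩ := base i (a + 1) (by omega)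
      exact ⟨a + 1, DA, DB, PA, PB, g1, g2, g3, by rw [pow_succ 2 (a + 1)]; omega, g4⟩

/-- one chain serves all members of a residue class modulo the odd part -/
lemma choose_chain (j d E G y : ℕ) (hG : Odd G) (hd : d.factorial ∣ 2 ^ E * G) :
    ∃ (D : ℕ) (P : ℤ), ∀ r : ℕ, r % G = y → (∃ D' P', Ch j d D' P' ∧ D' ∣ r) →
      Ch j d D P ∧ D ∣ r := by
  classical
  have hcop : ∀ v, Nat.Coprime (2 ^ v) G := fun v =>
    Nat.Coprime.pow_left v (Nat.coprime_two_left.mpr hG)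
  have key : ∀ r : ℕ, r % G = y → (∃ D' P', Ch j d D' P' ∧ D' ∣ r) →
      ∃ v, 2 ^ v ∣ r ∧ ∃ D P, Ch j d D P ∧ D ∣ 2 ^ v * Nat.gcd y G := by
    rintro r hr ⟨D', P', h1, h2⟩
    obtain ⟨v, -, hv⟩ := (Nat.dvd_prime_pow Nat.prime_two).mp (Nat.gcd_dvd_right r (2 ^ E))
    refine ⟨v, hv ▸ Nat.gcd_dvd_left r (2 ^ E), D', P', h1, ?_⟩
    have e : Nat.gcd y G = Nat.gcd r G := by
      rw [← hr, ← Nat.gcd_rec, Nat.gcd_comm]
    rw [e, ← hv, ← Nat.Coprime.gcd_mul r (hcop E)]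
    exact Nat.dvd_gcd h2 ((Ch_dvd h1).trans hd)
  by_cases hex : ∃ v, ∃ D P, Ch j d D P ∧ D ∣ 2 ^ v * Nat.gcd y G
  · obtain ⟨D, P, h1, h2⟩ := Nat.find_spec hex
    refine ⟨D, P, fun r hr hc => ⟨h1, h2.trans ?_⟩⟩
    obtain ⟨v, hv, hv'⟩ := key r hr hc
    apply Nat.Coprime.mul_dvd_of_dvd_of_dvd
    · exact Nat.Coprime.coprime_dvd_right (Nat.gcd_dvd_right _ _) (hcop _)
    · exact (pow_dvd_pow 2 (Nat.find_min' hex hv')).trans hv
    · rw [← hr, ← Nat.gcd_rec]; exact Nat.gcd_dvd_right _ _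
  · refine ⟨1, 0, fun r hr hc => ?_⟩
    obtain ⟨v, -, hv'⟩ := key r hr hc
    exact absurd ⟨v, hv'⟩ hex

lemma special_dvd {j a f F' DB D r : ℕ} {P : ℤ} (hF : (j + 2).factorial = 2 ^ f * F')
    (hF' : Odd F') (hB : DB * 2 ^ a = (j + 2).factorial) (ha : j + 2 < 2 ^ (a + 1))
    (hc : Ch j (j + 2) D P) (hD : D ∣ r) (hr : F' ∣ r) : DB ∣ r := by
  obtain ⟨o, ho1, ho2, ho3⟩ := Ch_omit hc
  obtain ⟨w, o', ho', rfl⟩ := Nat.exists_eq_two_pow_mul_odd (n := o) (by omega)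
  have hw : w ≤ a := by
    have : 2 ^ w ≤ 2 ^ w * o' := Nat.le_mul_of_pos_right _ ho'.pos
    have : 2 ^ w < 2 ^ (a + 1) := by omega
    have := (Nat.pow_lt_pow_iff_right (by norm_num)).mp this
    omega
  have h1 : 2 ^ f ∣ r * 2 ^ a := by
    have e1 : 2 ^ f ∣ (D * 2 ^ w) * o' := by
      rw [mul_assoc, ho3, hF]; exact Dvd.intro _ rfl
    have e2 : 2 ^ f ∣ D * 2 ^ w :=
      (Nat.Coprime.pow_left f (Nat.coprime_two_left.mpr ho')).dvd_of_dvd_mul_right e1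
    exact e2.trans (Nat.mul_dvd_mul hD (pow_dvd_pow 2 hw))
  have h2 : DB * 2 ^ a ∣ r * 2 ^ a := by
    rw [hB, hF]
    exact (Nat.Coprime.pow_left f (Nat.coprime_two_left.mpr hF')).mul_dvd_of_dvd_of_dvd
      h1 (hr.mul_right _)
  exact Nat.dvd_of_mul_dvd_mul_right (by positivity) h2

/-- the iterated remainder sets -/
def S (n : ℕ) : ℕ → Finset ℕ
  | 0 => Finset.Icc 1 (n / 2)
  | j + 1 => ((S n j).erase 0).image (fun k => n % k)

lemma S_le (n : ℕ) : ∀ j r, r ∈ S n j → 2 * r ≤ n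
  | 0, r, h => by have := (Finset.mem_Icc.mp h).2; omega
  | j + 1, r, h => by
    obtain ⟨k, hk, rfl⟩ := Finset.mem_image.mp h
    have h1 := Finset.mem_erase.mp hk
    have := S_le n j k h1.2
    have := Nat.mod_lt n (Nat.pos_of_ne_zero h1.1)
    omega

lemma suff (n : ℕ) : ∀ (j d r D : ℕ) (P : ℤ), 1 ≤ r → 1 ≤ d → (d + 1) * r < n → Ch j d D P →
    (D : ℤ) ∣ r - n * P → r ∈ S n j
  | 0, d, r, _, _, hr, hd, hn, _, _ => by
    have : 2 * r ≤ (d + 1) * r := Nat.mul_le_mul_right r (by omega)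
    exact Finset.mem_Icc.mpr ⟨hr, by omega⟩
  | j + 1, d, r, _, _, hr, _, hn, ⟨e, D', P', h1, h2, h3, rfl, rfl⟩, hD => by
    obtain ⟨k, hk, hk'⟩ := (cons_iff _ _ _ _ _ (by omega)).mp hD
    have h4 : (e + 1) * r < n := lt_of_le_of_lt (Nat.mul_le_mul_right r (by omega)) hn
    have h4' : ((e : ℤ) + 1) * r < n := by exact_mod_cast h4
    have hkr : (r : ℤ) < k := by
      by_contra hc
      push Not at hc
      nlinarith [mul_le_mul_of_nonneg_left hc (Int.natCast_nonneg e)]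
    obtain ⟨k, rfl⟩ := Int.eq_ofNat_of_zero_le (by omega : 0 ≤ k)
    have hk2 : n = r + e * k := by
      have : (n : ℤ) = r + e * k := by linarith
      exact_mod_cast this
    have hkr' : r < k := by exact_mod_cast hkr
    refine Finset.mem_image.mpr ⟨k, Finset.mem_erase.mpr ⟨by omega, ?_⟩, ?_⟩
    · refine suff n j (e - 1) k D' P' (by omega) (by omega) ?_ h3 hk'
      rw [Nat.sub_add_cancel (by omega)]; omega
    · rw [hk2, Nat.add_mul_mod_self_right, Nat.mod_eq_of_lt hkr']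

lemma nec (n : ℕ) : ∀ (j d r : ℕ), r ∈ S n j → 1 ≤ r → n ≤ (d + 2) * r →
    ∃ (D : ℕ) (P : ℤ), Ch j d D P ∧ (D : ℤ) ∣ r - n * P
  | 0, _, _, _, _, _ => ⟨1, 0, ⟨rfl, rfl⟩, by simp⟩
  | j + 1, d, r, h, hr, hn => by
    obtain ⟨k, hk, rfl⟩ := Finset.mem_image.mp h
    have h1 := Finset.mem_erase.mp hk
    have hk0 : 0 < k := Nat.pos_of_ne_zero h1.1
    have h2 := S_le n j k h1.2
    have h3 := Nat.mod_lt n hk0
    have h4 := Nat.div_add_mod n k
    have he : 2 ≤ n / k := (Nat.le_div_iff_mul_le hk0).mpr h2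
    generalize n / k = e at h4 he
    generalize n % k = r at h3 h4 hr hn
    have hed : e ≤ d := by
      by_contra hc
      have a1 : (d + 1) * r ≤ e * r := Nat.mul_le_mul_right r (by omega)
      have a2 : e * r < e * k := Nat.mul_lt_mul_of_pos_left h3 (by omega)
      nlinarith
    obtain ⟨D, P, g1, g2⟩ := nec n j (e - 1) k h1.2 hk0 (by
      have : e - 1 + 2 = e + 1 := by omega
      rw [this]; nlinarith)
    refine ⟨_, _, ⟨e, D, P, he, hed, g1, rfl, rfl⟩, (cons_iff _ _ _ _ _ (by omega)).mpr ⟨k, ?_, g2⟩⟩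
    rw [← h4]; push_cast; ring

end Pool.Agent.H376b
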