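import Mathlib
import Pool.Agent.H.MP_376bf0_nt.A

set_option autoImplicit false

namespace Pool.Agent.H376b

open Finset

/-- all but few members of `S n j` lie well inside a strip of bounded level -/
lemma count_good (W Q m : ℕ) (hW : 0 < W) (T : Finset ℕ) :
    2 * T.card ≤ 2 * (T.filter fun r => 1 ≤ r ∧ (W * m - 1) / r < 2 * W ∧
      (W * m - 1) / (r + Q) = (W * m - 1) / r).card + m + (2 + 4 * W * Q) := by
  classical
  set N := W * m - 1 with hN
  have hsub : T ⊆ ((T.filter fun r => 1 ≤ r ∧ N / r < 2 * W ∧ N / (r + Q) = N / r) ∪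
      range (m / 2 + 1)) ∪ (range (2 * W)).biUnion fun e => Ioc (N / e - Q) (N / e) := by
    intro r hr
    simp only [mem_union, mem_filter, mem_range, mem_biUnion, mem_Ioc]
    rcases Nat.eq_zero_or_pos r with h0 | h0
    · left; right; omega
    rcases Nat.lt_or_ge (N / r) (2 * W) with h1 | h1
    · by_cases h2 : N / (r + Q) = N / r
      · left; left; exact ⟨hr, h0, h1, h2⟩
      · right
        have h3 : N / (r + Q) ≤ N / r := Nat.div_le_div_left (by omega) h0
        have h4 : N / (r + Q) < N / r := lt_of_le_of_ne h3 h2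
        have he : 0 < N / r := lt_of_le_of_lt (Nat.zero_le _) h4
        refine ⟨N / r, h1, ?_, ?_⟩
        · have h5 := (Nat.div_lt_iff_lt_mul (by omega)).mp h4
          have h6 : N / (N / r) < r + Q := (Nat.div_lt_iff_lt_mul he).mpr (by rwa [mul_comm])
          omega
        · exact (Nat.le_div_iff_mul_le he).mpr (Nat.mul_div_le N r)
    · left; right
      have h2 := (Nat.le_div_iff_mul_le h0).mp h1
      have h3 : W * (2 * r) ≤ W * m := by
        have : W * (2 * r) = 2 * W * r := by ring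
        omega
      have := Nat.le_of_mul_le_mul_left h3 hW
      omega
  have h1 := card_le_card hsub
  have h2 := card_union_le ((T.filter fun r => 1 ≤ r ∧ N / r < 2 * W ∧ N / (r + Q) = N / r) ∪
      range (m / 2 + 1)) ((range (2 * W)).biUnion fun e => Ioc (N / e - Q) (N / e))
  have h3 := card_union_le (T.filter fun r => 1 ≤ r ∧ N / r < 2 * W ∧ N / (r + Q) = N / r)
      (range (m / 2 + 1))
  have h4 : ((range (2 * W)).biUnion fun e => Ioc (N / e - Q) (N / e)).card ≤ 2 * W * Q := by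
    have := card_biUnion_le_card_mul (range (2 * W)) (fun e => Ioc (N / e - Q) (N / e)) Q
      (fun e _ => by rw [Nat.card_Ioc]; omega)
    rwa [card_range] at this
  rw [card_range] at h3
  have : 4 * W * Q = 2 * (2 * W * Q) := by ring
  omega

lemma main (j : ℕ) (hj : 2 ≤ j) : ∃ W Q G C : ℕ, 0 < W ∧ 0 < Q ∧ ∀ m, 0 < m →
    2 * (S (W * (Q * m)) j).card + Q * m ≤ 2 * (S (W * (Q * m) + G) j).card + C := by
  classical
  obtain ⟨a, DA, DB, PA, PB, hA, hB, hBa, ha, hAB⟩ := pair_exists j hj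
  obtain ⟨f, F', hF', hF⟩ := Nat.exists_eq_two_pow_mul_odd (Nat.factorial_ne_zero (j + 2))
  have hFpos := Nat.factorial_pos (j + 2)
  obtain ⟨W, hWdef⟩ : ∃ W, W = (j + 3) * (j + 4) * (j + 2).factorial := ⟨_, rfl⟩
  have hWj : j + 3 ≤ W := by
    rw [hWdef, mul_assoc]; exact Nat.le_mul_of_pos_right _ (by positivity)
  obtain ⟨E, G, hG, hQ⟩ := Nat.exists_eq_two_pow_mul_odd (Nat.factorial_ne_zero (2 * W))
  have hQpos := Nat.factorial_pos (2 * W)
  have hdQ : ∀ d, d ≤ 2 * W → d.factorial ∣ 2 ^ E * G := fun d hd =>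
    hQ ▸ Nat.factorial_dvd_factorial hd
  have hF'G : F' ∣ G := by
    have h1 : F' ∣ 2 ^ E * G := (Dvd.intro_left _ hF.symm).trans (hdQ (j + 2) (by omega))
    exact (Nat.Coprime.pow_left E (Nat.coprime_two_left.mpr hF')).symm.dvd_of_dvd_mul_left h1
  have hch : ∀ d y : ℕ, ∃ (D : ℕ) (P : ℤ), (d ≤ 2 * W → ∀ r : ℕ, r % G = y →
      (∃ D' P', Ch j d D' P' ∧ D' ∣ r) → Ch j d D P ∧ D ∣ r) ∧
      (d = j + 2 → F' ∣ y → D = DB ∧ P = PB) := by
    intro d y
    by_cases h : d = j + 2 ∧ F' ∣ y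
    · obtain ⟨rfl, h⟩ := h
      refine ⟨DB, PB, ?_, fun _ _ => ⟨rfl, rfl⟩⟩
      rintro - r hr ⟨D', P', h1, h2⟩
      refine ⟨hB, special_dvd hF hF' hBa ha h1 h2 ?_⟩
      rw [← hr] at h
      exact (Nat.dvd_mod_iff hF'G).mp h
    · by_cases hd : d ≤ 2 * W
      · obtain ⟨D, P, h1⟩ := choose_chain j d E G y hG (hdQ d hd)
        exact ⟨D, P, fun _ => h1, fun h1 h2 => absurd ⟨h1, h2⟩ h⟩
      · exact ⟨1, 0, fun h1 => absurd h1 hd, fun h1 h2 => absurd ⟨h1, h2⟩ h⟩
  choose Df Pf hDP using hch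
  refine ⟨W, (2 * W).factorial, G, 2 + 4 * W * (2 * W).factorial, by omega, hQpos, ?_⟩
  intro m hm
  generalize (2 * W).factorial = Q at hQ hQpos
  obtain ⟨M, hM⟩ : ∃ M, M = Q * m := ⟨_, rfl⟩
  rw [← hM]
  have hMpos : 0 < M := by rw [hM]; positivity
  have hnpos : 0 < W * M := Nat.mul_pos (by omega) hMpos
  have hQn : (Q : ℤ) ∣ ((W * M : ℕ) : ℤ) := by
    rw [hM]; exact_mod_cast (Dvd.intro m rfl).mul_left W
  have hcg := count_good W Q M (by omega) (S (W * M) j)
  set N := W * M - 1 with hN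
  set Good := (S (W * M) j).filter fun r => 1 ≤ r ∧ N / r < 2 * W ∧ N / (r + Q) = N / r
    with hGood
  obtain ⟨t, ht⟩ : ∃ t : ℕ → ℕ → ℕ, ∀ d y, t d y < 2 ^ E ∧ ((2 ^ E : ℕ) : ℤ) ∣ t d y - Pf d y := by
    refine ⟨fun d y => (Pf d y % ((2 ^ E : ℕ) : ℤ)).toNat, fun d y => ?_⟩
    have h0 : (0 : ℤ) < ((2 ^ E : ℕ) : ℤ) := by positivity
    have h1 := Int.emod_nonneg (Pf d y) h0.ne'
    have h2 := Int.emod_lt_of_pos (Pf d y) h0
    beta_reduce
    refine ⟨by omega, ?_⟩
    rw [Int.toNat_of_nonneg h1]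
    exact (Int.mod_modEq _ _).symm.dvd
  set φ : ℕ → ℕ := fun r => r + G * t (N / r - 1) (r % G) with hφ
  have hφ1 : ∀ r, r ≤ φ r := fun r => Nat.le_add_right _ _
  have hφ2 : ∀ r, φ r ≤ r + Q := fun r => by
    have := Nat.mul_le_mul_left G (ht (N / r - 1) (r % G)).1.le
    simp only [hφ]
    rw [hQ, mul_comm (2 ^ E)]; omega
  have hφ3 : ∀ r, φ r % G = r % G := fun r => Nat.add_mul_mod_self_left _ _ _
  have hφ4 : ∀ r ∈ Good, N / φ r = N / r := by
    intro r hr
    obtain ⟨-, h1, -, h3⟩ := mem_filter.mp hr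
    have a1 : N / φ r ≤ N / r := Nat.div_le_div_left (hφ1 r) h1
    have a2 : N / (r + Q) ≤ N / φ r := Nat.div_le_div_left (hφ2 r) (h1.trans (hφ1 r))
    omega
  have hφ5 : ∀ r ∈ Good, Ch j (N / r - 1) (Df (N / r - 1) (r % G)) (Pf (N / r - 1) (r % G)) ∧
      (Df (N / r - 1) (r % G) : ℤ) ∣ φ r - ((W * M + G : ℕ) : ℤ) * Pf (N / r - 1) (r % G) := by
    intro r hr
    obtain ⟨h0, h1, h2, -⟩ := mem_filter.mp hr
    have hlt : N < r * (N / r + 1) := Nat.lt_mul_div_succ N h1
    obtain ⟨D, P, g1, g2⟩ := nec (W * M) j (N / r - 1) r h0 h1 (by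
      have : r * (N / r + 1) ≤ (N / r - 1 + 2) * r := by
        rw [mul_comm]; exact Nat.mul_le_mul_right r (by omega)
      omega)
    have hdd : ∀ D' P', Ch j (N / r - 1) D' P' → (D' : ℤ) ∣ Q := fun D' P' h => by
      rw [hQ]; exact_mod_cast (Ch_dvd h).trans (hdQ _ (by omega))
    have g3 : D ∣ r := by
      have : (D : ℤ) ∣ r := by
        have := g2.add (((hdd D P g1).trans hQn).mul_right P)
        simpa using this
      exact_mod_cast this
    obtain ⟨k1, k2⟩ := (hDP (N / r - 1) (r % G)).1 (by omega) r rfl ⟨D, P, g1, g3⟩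
    refine ⟨k1, ?_⟩
    have e1 := hdd _ _ k1
    have e2 : (Q : ℤ) ∣ G * (t (N / r - 1) (r % G) - Pf (N / r - 1) (r % G)) := by
      rw [hQ, Nat.cast_mul, mul_comm]
      exact mul_dvd_mul_left _ (ht _ _).2
    have e3 : (Df (N / r - 1) (r % G) : ℤ) ∣ r := by exact_mod_cast k2
    have := (e3.add (e1.trans e2)).sub ((e1.trans hQn).mul_right (Pf (N / r - 1) (r % G)))
    have e4 : (φ r : ℤ) = r + G * t (N / r - 1) (r % G) := by simp only [hφ]; push_cast; ring
    rw [e4, Nat.cast_add]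
    obtain ⟨u, hu⟩ := this
    exact ⟨u, by linear_combination hu⟩
  have hφ6 : ∀ r ∈ Good, φ r ∈ S (W * M + G) j := by
    intro r hr
    obtain ⟨k1, k2⟩ := hφ5 r hr
    obtain ⟨-, h1, -, -⟩ := mem_filter.mp hr
    obtain ⟨i, rfl⟩ : ∃ i, j = i + 1 := ⟨j - 1, by omega⟩
    have hl := Ch_len k1
    refine suff _ _ _ _ _ _ (h1.trans (hφ1 r)) (by omega) ?_ k1 k2
    have := Nat.div_mul_le_self N (φ r)
    rw [hφ4 r hr] at this
    rw [Nat.sub_add_cancel (by omega)]
    omega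
  have hinj : Set.InjOn φ Good := by
    intro r hr s hs h
    have e1 : N / r = N / s := by rw [← hφ4 r hr, ← hφ4 s hs, h]
    have e2 : r % G = s % G := by rw [← hφ3 r, ← hφ3 s, h]
    simp only [hφ] at h
    rw [e1, e2] at h
    omega
  obtain ⟨c, hc1, hc2⟩ : ∃ c : ℕ, c < (j + 2).factorial ∧
      (((j + 2).factorial : ℕ) : ℤ) ∣ c - G * PA := by
    have h0 : (0 : ℤ) < (((j + 2).factorial : ℕ) : ℤ) := by positivity
    have h1 := Int.emod_nonneg (G * PA) h0.ne'
    have h2 := Int.emod_lt_of_pos (G * PA) h0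
    refine ⟨(G * PA % (((j + 2).factorial : ℕ) : ℤ)).toNat, by omega, ?_⟩
    rw [Int.toNat_of_nonneg h1]
    exact (Int.mod_modEq _ _).symm.dvd
  have hDA : (DA : ℤ) ∣ (((j + 2).factorial : ℕ) : ℤ) := by exact_mod_cast Ch_dvd hA
  have hFF : (F' : ℤ) ∣ (((j + 2).factorial : ℕ) : ℤ) := by
    exact_mod_cast Dvd.intro_left _ hF.symm
  generalize (j + 2).factorial = F at hWdef hc1 hc2 hDA hFF hFpos
  set ψ : ℕ → ℕ := fun i => (j + 3) * (F * M) + F * i + c with hψ
  have hψ1 : ∀ i ∈ range M, (j + 3) * ψ i < W * M ∧ W * M ≤ (j + 4) * ψ i := by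
    intro i hi
    have h1 : F * (i + 1) ≤ F * M := Nat.mul_le_mul_left F (mem_range.mp hi)
    have h2 : ψ i < (j + 4) * (F * M) := by
      simp only [hψ]; nlinarith
    have h3 : (j + 3) * (F * M) ≤ ψ i := by
      simp only [hψ]; omega
    constructor
    · calc (j + 3) * ψ i < (j + 3) * ((j + 4) * (F * M)) :=
          Nat.mul_lt_mul_of_pos_left h2 (by omega)
        _ = W * M := by rw [hWdef]; ring
    · calc W * M = (j + 4) * ((j + 3) * (F * M)) := by rw [hWdef]; ring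
        _ ≤ _ := Nat.mul_le_mul_left _ h3
  have hψ0 : ∀ i ∈ range M, 1 ≤ ψ i := by
    intro i hi
    have := (hψ1 i hi).2
    by_contra h
    have h0 : ψ i = 0 := by omega
    rw [h0] at this
    omega
  have hψ2 : ∀ i, (F : ℤ) ∣ ψ i - ((W * M + G : ℕ) : ℤ) * PA := by
    intro i
    obtain ⟨u, hu⟩ := hc2
    refine ⟨(j + 3) * M + i + u - (j + 3) * (j + 4) * M * PA, ?_⟩
    simp only [hψ]
    rw [hWdef]
    push_cast
    linear_combination hu
  have hψ3 : ∀ i ∈ range M, ψ i ∈ S (W * M + G) j := fun i hi =>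
    suff _ _ (j + 2) _ _ _ (hψ0 i hi) (by omega) ((hψ1 i hi).1.trans_le (Nat.le_add_right _ _)) hA
      (hDA.trans (hψ2 i))
  have hodd : Odd ((W * M + G : ℕ) : ℤ) := by
    have h1 : 2 ∣ W * M := by
      have h2 : Even ((j + 3) * (j + 4)) := Nat.even_mul_succ_self (j + 3)
      rw [hWdef]
      exact (h2.two_dvd.mul_right F).mul_right M
    have : Odd (W * M + G) := (even_iff_two_dvd.mpr h1).add_odd hG
    exact_mod_cast this
  have hdisj : Disjoint (Good.image φ) ((range M).image ψ) := by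
    rw [disjoint_left]
    intro x hx hx'
    obtain ⟨r, hr, rfl⟩ := mem_image.mp hx
    obtain ⟨i, hi, h⟩ := mem_image.mp hx'
    have h1 : N / r = j + 3 := by
      rw [← hφ4 r hr, ← h]
      have := hψ1 i hi
      exact (Nat.div_eq_iff (hψ0 i hi)).mpr (by
        have : (j + 4) * ψ i = (j + 3) * ψ i + ψ i := by ring
        have := hψ0 i hi
        omega)
    have h2 : F' ∣ r % G := by
      rw [← hφ3 r, ← h, Nat.dvd_mod_iff hF'G]
      have e1 : (F' : ℤ) ∣ G := by exact_mod_cast hF'G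
      have e2 : (F' : ℤ) ∣ ((W * M + G : ℕ) : ℤ) := by
        rw [hWdef]; push_cast
        exact ((hFF.mul_left _).mul_right _).add e1
      have := (hFF.trans (hψ2 i)).add (e2.mul_right PA)
      rw [sub_add_cancel] at this
      exact_mod_cast this
    obtain ⟨e1, e2⟩ := (hDP (N / r - 1) (r % G)).2 (by omega) h2
    have h3 := (hφ5 r hr).2
    rw [e1, e2, ← h] at h3
    exact hAB _ _ hodd (hDA.trans (hψ2 i)) h3
  have hsub : Good.image φ ∪ (range M).image ψ ⊆ S (W * M + G) j := by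
    intro x hx
    rcases mem_union.mp hx with hx | hx
    · obtain ⟨r, hr, rfl⟩ := mem_image.mp hx
      exact hφ6 r hr
    · obtain ⟨i, hi, rfl⟩ := mem_image.mp hx
      exact hψ3 i hi
  have hcard := card_le_card hsub
  rw [card_union_of_disjoint hdisj, card_image_of_injOn hinj, card_image_of_injective _ (by
    intro u v h
    simp only [hψ] at h
    exact Nat.eq_of_mul_eq_mul_left hFpos (by omega)), card_range] at hcard
  omega

open Filter Topology in
theorem not_conv (j : ℕ) (hj : 2 ≤ j) (L : ℝ) :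
    ¬ Tendsto (fun n : ℕ => ((S n j).card : ℝ) / n) atTop (𝓝 L) := by
  intro h
  obtain ⟨W, Q, G, C, hW, hQ, hm⟩ := main j hj
  have hWQ : (0 : ℝ) < W * Q := by positivity
  have t0 : Tendsto (fun m : ℕ => W * (Q * m)) atTop atTop :=
    tendsto_atTop_mono (fun m => by
      calc id m = m := rfl
        _ ≤ Q * m := Nat.le_mul_of_pos_left _ hQ
        _ ≤ W * (Q * m) := Nat.le_mul_of_pos_left _ hW) tendsto_id
  have t1 : Tendsto (fun m : ℕ => W * (Q * m) + G) atTop atTop :=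
    tendsto_atTop_mono (fun m => Nat.le_add_right _ _) t0
  have i0 : Tendsto (fun m : ℕ => (((W * (Q * m) : ℕ) : ℝ))⁻¹) atTop (𝓝 0) :=
    tendsto_inv_atTop_zero.comp (tendsto_natCast_atTop_atTop.comp t0)
  have a0 := ((h.comp t0).const_mul 2).add_const ((W : ℝ)⁻¹)
  have a1 := (((h.comp t1).mul ((i0.const_mul (G : ℝ)).const_add 1)).const_mul 2).add
    (i0.const_mul (C : ℝ))
  have hle := le_of_tendsto_of_tendsto a0 a1 (by
    filter_upwards [eventually_gt_atTop 0] with m hm0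
    have h1 : ((2 * (S (W * (Q * m)) j).card + Q * m : ℕ) : ℝ) ≤
      ((2 * (S (W * (Q * m) + G) j).card + C : ℕ) : ℝ) := by exact_mod_cast hm m hm0
    have hn : (0 : ℝ) < W * (Q * m) := by positivity
    simp only [Function.comp]
    push_cast at h1 ⊢
    have := div_le_div_of_nonneg_right h1 hn.le
    convert this using 1
    · field_simp
    · field_simp)
  have : (0 : ℝ) < (W : ℝ)⁻¹ := by positivity
  simp at hle
  linarith

end Pool.Agent.H376b
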